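import Mathlib
import Pool.Agent.Helper271.CT.Defs
import Pool.Agent.Helper271.CP.Defs
import Pool.Agent.Helper271.CP.Final

/-!
# Cluster type varieties lift over `W₂(k)`

Let `k` be a perfect field of characteristic `p > 0` and let `(X, B)` be a log pair over `k` which is
crepant birational equivalent to `(ℙⁿ, H₀ + … + Hₙ)`.  Then `X` lifts over `W₂(k)`.  In particular
every cluster type variety over an algebraically closed field lifts over `W₂(k)`.

Proof.  Let `x₁, …, xₙ ∈ K(X)` be the coordinates of the torus and `Ω = dx₁/x₁ ∧ … ∧ dxₙ/xₙ`.  Then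
`div_{ℙⁿ}(Ω) = -(H₀ + … + Hₙ)`, so that the log canonical divisor `K_{ℙⁿ} + H₀ + … + Hₙ` given by
`ω = g Ω` is the principal divisor of `g`; as every prime divisor of `X` is a prime divisor of the
common model (valuative criterion), `K_X + B = div_X(g)`, i.e. `B = -div_X(Ω)`.  Hence `B ≥ 0` is the
polar divisor of `Ω` and `X` is Frobenius split by the `p⁻¹`-linear map `σ` on
`K(X) = k(x₁, …, xₙ)` with `σ(1) = 1` which kills the other monomials `x^a`, `0 ≤ aᵢ < p`.  The
lifting is given by the sheaf of rings `W₂(𝒪_X) / V(ker σ)`.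
-/

universe u

open AlgebraicGeometry CategoryTheory Limits ClusterLift

namespace Pool.Agent.Results.MP_326da7_ag.CrepantLift

theorem result (p : ℕ) [Fact p.Prime] {k : Type u} [Field k] [CharP k p] [PerfectField k]
    {X : Scheme.{u}} (s : X ⟶ Spec (CommRingCat.of k)) [IsIntegral X] [LocallyOfFiniteType s]
    (hX : ∀ x : X, IsIntegrallyClosed (X.presheaf.stalk x)) (n : ℕ) (B : X → ℚ)
    (hB : ∀ E : X, IsPrimeDivisor E → 0 ≤ B E)
    (h : CrepantBirational n s B (PSpace.toSpec n k) (hyperplanes n k)) :
    LiftsOverW2 p s :=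
  crepant_main p s hX n B hB h

end Pool.Agent.Results.MP_326da7_ag.CrepantLift
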