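import Mathlib
import Pool.Agent.Helper271.CT.Defs
import Pool.Agent.Helper271.CT.Final

/-!
# Normal varieties with effective polar divisor lift over `W₂(k)`

Let `k` be a perfect field of characteristic `p > 0` and let `X` be a normal integral scheme locally
of finite type over `k` which is rational of dimension `n`: `K(X) = k(x₁, …, xₙ)`.  If the Weil
divisor `B = -div_X(dx₁/x₁ ∧ … ∧ dxₙ/xₙ)` is effective, then `X` lifts over `W₂(k)`.

Every cluster type variety satisfies the hypotheses: if `φ : ℙⁿ ⇢ X` is a crepant birational map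
`(ℙⁿ, H₀ + … + Hₙ) ⇢ (X, B)` and `x₁, …, xₙ` are the coordinates of the torus, then
`div(dx₁/x₁ ∧ … ∧ dxₙ/xₙ) = -(H₀ + … + Hₙ)` on `ℙⁿ`, so
`p^*(K_X + B) = q^*(K_{ℙⁿ} + H₀ + … + Hₙ) = 0` for `K_X = div_X(dx₁/x₁ ∧ … ∧ dxₙ/xₙ)`, and
therefore `B = -div_X(dx₁/x₁ ∧ … ∧ dxₙ/xₙ)`, and it is effective by definition of a pair.

Proof.  On `K(X) = k(x₁, …, xₙ)` let `σ` be the `p⁻¹`-linear map with `σ(1) = 1` which kills
`x₁^(a₁) ⋯ xₙ^(aₙ)` for `0 ≤ aᵢ < p` not all zero; in terms of the Cartier operator `C`,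
`C(f dx₁/x₁ ∧ … ∧ dxₙ/xₙ) = σ(f) dx₁/x₁ ∧ … ∧ dxₙ/xₙ`.  As the Cartier operator preserves regular
forms and `B ≥ 0`, `σ` maps the local ring of `X` at any prime divisor to itself, hence preserves
`𝒪_X`, and so is a splitting of the Frobenius of `X`.  The sheaf of rings
`W₂(𝒪_X) / V(ker σ)` on `X` is the structure sheaf of the lifting.
-/

universe u

open AlgebraicGeometry CategoryTheory Limits ClusterLift

namespace Pool.Agent.Results.MP_326da7_ag.PolarLift

theorem result (p : ℕ) [Fact p.Prime] {k : Type u} [Field k] [CharP k p] [PerfectField k]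
    {X : Scheme.{u}} (s : X ⟶ Spec (CommRingCat.of k)) [IsIntegral X] [LocallyOfFiniteType s]
    (hX : ∀ x : X, IsIntegrallyClosed (X.presheaf.stalk x))
    {n : ℕ} (x : Fin n → X.functionField) (hx : IsBirationalCoordinates s x)
    (B : X → ℤ) (hB : IsPolarDivisor s x B)
    (hB0 : ∀ E : X, ringKrullDim (X.presheaf.stalk E) = 1 → 0 ≤ B E) :
    LiftsOverW2 p s :=
  Pool.Agent.Helper271.CT.main_theorem p s hX x hx B hB hB0

end Pool.Agent.Results.MP_326da7_ag.PolarLift
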